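import Pool.Agent.POpt70.Sparse

/-!
# Very sparse sets whose easiness refutes Q1
-/

set_option autoImplicit false

namespace Pool.Agent.Results.MP_c56612_lc.SparseAdvice

open N68a2faeb N793a5b8e Pool.Agent.POpt70

/-- Let `L` be a nonempty language in `NP` and `β` a nondecreasing unbounded function computable
in polynomial time (in unary). There is a set `F = A \ B` with `A, B` in `Π₂ᵖ`, consisting of
words `1^(2^(2^i))`, at most `β n` of them with `i < n`, such that `L` has a proof system with the
advice `F` that `p`-simulates every proof system for `L`, and a `p`-optimal proof system if `F` is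
in `P`. -/
theorem result (L : DecisionProblem) (hL : L ∈ NP) (hne : ∃ y, L y = true) (β : ℕ → ℕ)
    (hβ : Monotone β) (hβ' : ∀ k, ∃ n, k ≤ β n)
    (hβP : IsPolyTime fun x : List Bool => List.replicate (β x.length) true) :
    ∃ A ∈ PiTwo, ∃ B ∈ PiTwo, IsSparse β (fun x => A x && !B x) ∧
      (∃ Q : List Bool × List Bool → List Bool, IsPolyTime Q ∧
        (∀ π, L (Q (π, advice (fun x => A x && !B x) π.length)) = true) ∧
        ∀ S, IsProofSystem L S → ∃ h : List Bool → List Bool, IsPolyTime h ∧
          ∀ π, Q (h π, advice (fun x => A x && !B x) (h π).length) = S π) ∧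
      ((fun x => A x && !B x) ∈ P → ∃ Q, IsPOptimalProofSystem L Q) :=
  main hL hne hβ hβ' hβP

end Pool.Agent.Results.MP_c56612_lc.SparseAdvice
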